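import Mathlib
import Pool.Agent.Q7.LeonardDefs
import Pool.Agent.Q7.LeonardGen2

/-!
# Generating sets of primitive idempotents in a Leonard system
-/

set_option autoImplicit false

namespace Pool.Agent.Results.MP_9ad7dc_al.Generate

open Q7.Leonard

/-- For every Leonard system in an algebra `𝒜 ≅ Mat_{d+1}(K)` and every `0 ≤ r ≤ d`, the primitive
idempotents `E*_0, …, E*_r, E_r, …, E_d` generate the algebra `𝒜`. -/
theorem result {K 𝒜 : Type*} [Field K] [Ring 𝒜] [Algebra K 𝒜] {d : ℕ}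
    (h𝒜 : Nonempty (𝒜 ≃ₐ[K] Matrix (Fin (d + 1)) (Fin (d + 1)) K)) (A As : 𝒜)
    (θ θs : Fin (d + 1) → K) (h : IsLeonardSystem A As θ θs) (r : ℕ) (hr : r ≤ d) :
    Algebra.adjoin K ({x | ∃ i : Fin (d + 1), (i : ℕ) ≤ r ∧ x = primIdem As θs i} ∪
      {x | ∃ j : Fin (d + 1), r ≤ (j : ℕ) ∧ x = primIdem A θ j}) = ⊤ :=
  adjoin_eq_top h𝒜 h r hr

end Pool.Agent.Results.MP_9ad7dc_al.Generate
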